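import Pool.Agent.H45.SE.TarT

/-! # TBb: isomorphisms act on conditions -/

open Ordinal Order Set
open scoped ZFSet

namespace SE

open SF

theorem pf_TBb (BA : T_BA) (BC : T_BC) (BD : T_BD) (TBa : T_TBa) (TBd : T_TBd) : T_TBb := by
  intro L π ρ ρ' p hρ hρ' hI
  obtain ⟨-, B2, -, -, -, -, B7⟩ := BA
  obtain ⟨C1, C2, C3, C4, C5, C6, C7, -⟩ := BC
  obtain ⟨D1, D2, D3, D4, D5, D6, -⟩ := BD
  obtain ⟨A1, A2, A3, A4, A5, -⟩ := TBa
  obtain ⟨-, -, T3, T4, T5⟩ := TBd π ρ ρ' hI.fn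
  have hinj : Ijo π ρ := hI.inj
  obtain ⟨I1, I2, I3, I4, I5, I6, I7, I8, I9⟩ := T5 hinj hI.onto
  obtain ⟨R1, R2, R3⟩ := B7 L ρ hρ
  obtain ⟨R1', R2', R3'⟩ := B7 L ρ' hρ'
  have AA := A1 π ρ hinj
  -- restrictions
  have key : ∀ q, FF q → dm q ⊆ ρ → ∀ i ∈ ρ,
      rst (lS (app π i)) (mv π q) = mv π (rst (lS i) q) := by
    intro q hq hd i hi
    rw [hI.sup i hi]
    exact (AA q hq hd).2.2.2.2 (lS i) (R2 i hi).2.1
  have rstP : ∀ q ∈ Pos L ρ, ∀ i ∈ ρ, rst (lS i) q ∈ Pos L (lS i) := by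
    intro q hq i hi
    exact (D3 L ρ (lS i) q hq fun k hk _ => (R2 i hi).1.tr k hk).1
  have ffp : ∀ q ∈ Pos L ρ, FF q := fun q hq => ((C4 L ρ q).1 hq).1
  have ffp' : ∀ q ∈ Pos L ρ', FF q := fun q hq => ((C4 L ρ' q).1 hq).1
  have fw : ∀ q ∈ Pos L ρ, Le q p → mv π q ∈ Pos L ρ' ∧ Le (mv π q) (mv π p) := by
    intro q hq hle
    obtain ⟨hFF, hd, hco⟩ := (C4 L ρ q).1 hq
    obtain ⟨hFFp, hdp, -⟩ := (C4 L ρ p).1 hI.pp
    obtain ⟨a1, a2, a3, a4, a5⟩ := AA q hFF hd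
    obtain ⟨b1, b2, b3, b4, b5⟩ := AA p hFFp hdp
    refine ⟨(C4 L ρ' (mv π q)).2 ⟨a1, ?_, ?_⟩, (b4 q hFF hd).1.2 hle⟩
    · exact (I7 q hFF hd).1
    · intro j hj
      rw [a2, A2] at hj
      obtain ⟨i, hi, rfl⟩ := hj
      have hiρ := hd hi
      have hc := hco i hi
      have he := (a3 i hiρ).2
      constructor
      · rw [he]; exact hc.eq
      · rw [he]; exact hc.s
      · rw [he]; exact hc.f
      · intro n hn
        rw [he] at hn ⊢
        obtain ⟨b, hb, jj, hjj, h1, h2, h3⟩ := hc.v n hn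
        refine ⟨b, hb, jj, hjj, h1, h2, ?_⟩
        rw [key q hFF hd i hiρ]
        exact (hI.ag i hiρ (rst (lS i) q) (rstP q hq i hiρ) (D6 _ _ _ hFFp hFF hle) b).1 h3
  have bw : ∀ q' ∈ Pos L ρ', Le q' (mv π p) → ∃ q ∈ Pos L ρ, Le q p ∧ mv π q = q' := by
    intro q' hq' hle
    obtain ⟨hFF', hd', hco'⟩ := (C4 L ρ' q').1 hq'
    obtain ⟨hFFp, hdp, -⟩ := (C4 L ρ p).1 hI.pp
    have hFF : FF (mv (inv π) q') := (A1 (inv π) ρ' I3 q' hFF' hd').1
    obtain ⟨hd, hmv⟩ := I8 q' hFF' hd'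
    set q := mv (inv π) q' with hqdef
    obtain ⟨a1, a2, a3, a4, a5⟩ := AA q hFF hd
    obtain ⟨b1, b2, b3, b4, b5⟩ := AA p hFFp hdp
    have hleq : Le q p := (b4 q hFF hd).1.1 (by rw [hmv]; exact hle)
    have hco : ∀ r : Ordinal.{0}, ∀ i ∈ dm q, i.rank = r → Co L q i := by
      intro r
      induction r using WellFoundedLT.induction with
      | ind r ih =>
        intro i hi hr
        have hiρ := hd hi
        have hiq' : app π i ∈ dm q' := by
          rw [← hmv]; exact (a3 i hiρ).1.2 hi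
        have he : app q' (app π i) = app q i := by
          rw [← hmv]; exact (a3 i hiρ).2
        have hc := hco' (app π i) hiq'
        have hPos : rst (lS i) q ∈ Pos L (lS i) := by
          obtain ⟨c1, c2, c3, c4⟩ := C5 (lS i) q hFF
          refine (C4 L (lS i) _).2 ⟨c1, fun k hk => ((c2 k).1 hk).2, ?_⟩
          intro k hk
          obtain ⟨hk1, hk2⟩ := (c2 k).1 hk
          have hrk := (B2 L i (R2 i hiρ).1).2.2.2.2.1 k hk2
          have hck := ih k.rank (hr ▸ hrk) k hk1 rfl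
          have hek := c3 k hk2
          have hsub : lS k ⊆ lS i := (R2 i hiρ).1.tr k hk2
          constructor
          · rw [hek]; exact hck.eq
          · rw [hek]; exact hck.s
          · rw [hek]; exact hck.f
          · intro n hn
            rw [hek] at hn ⊢
            rw [C7 (lS k) (lS i) q hsub]
            exact hck.v n hn
        constructor
        · rw [← he]; exact hc.eq
        · rw [← he]; exact hc.s
        · rw [← he]; exact hc.f
        · intro n hn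
          rw [← he] at hn ⊢
          obtain ⟨b, hb, jj, hjj, h1, h2, h3⟩ := hc.v n hn
          refine ⟨b, hb, jj, hjj, h1, h2, ?_⟩
          rw [← hmv, key q hFF hd i hiρ] at h3
          exact (hI.ag i hiρ (rst (lS i) q) hPos (D6 _ _ _ hFFp hFF hleq) b).2 h3
    exact ⟨q, (C4 L ρ q).2 ⟨hFF, hd, fun i hi => hco _ i hi rfl⟩, hleq, hmv⟩
  have trs : ∀ p1 ∈ Pos L ρ, Le p1 p → ∀ i ∈ ρ, ∀ q ∈ Pos L (lS i), Le q (rst (lS i) p1) →
      Le q (rst (lS i) p) := by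
    intro p1 hp1 hle i hi q hq hqle
    exact D5 L (lS i) _ _ _ (rstP p hI.pp i hi) (rstP p1 hp1 i hi) hq hqle
      (D6 _ _ _ (ffp p hI.pp) (ffp p1 hp1) hle)
  refine ⟨hinj, T3, I1, (fw p hI.pp (D4 L ρ p hI.pp).1).1, fw, bw, ?_, ?_⟩
  · intro p1 hp1 hle
    refine ⟨⟨hI.fn, hI.inj, hI.onto, hI.sup, hp1, ?_⟩, ?_⟩
    · intro i hi q hq hqle b
      exact hI.ag i hi q hq (trs p1 hp1 hle i hi q hq hqle) b
    · intro hz i hi q hq hqle b
      exact hz i hi q hq (trs p1 hp1 hle i hi q hq hqle) b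
  · intro s hs hTr
    obtain ⟨S1, S2, S3, S4⟩ := T4 s hs
    have hTr' : Tr (im π s) := by
      intro j hj
      obtain ⟨i, hi, rfl⟩ := (A2 π s j).1 hj
      rw [hI.sup i (hs hi)]
      intro k hk
      obtain ⟨l, hl, rfl⟩ := (A2 π (lS i) k).1 hk
      exact (A2 π s _).2 ⟨l, hTr i hi hl, rfl⟩
    have himi : ∀ i ∈ s, im (rst s π) (lS i) = im π (lS i) := fun i hi =>
      (A4 (rst s π) π (lS i) fun k hk => S3 k (hTr i hi hk)).1
    have hmvi : ∀ i ∈ s, ∀ q ∈ Pos L (lS i), mv (rst s π) q = mv π q := by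
      intro i hi q hq
      obtain ⟨hFF, hd, -⟩ := (C4 L (lS i) q).1 hq
      exact (A4 (rst s π) π (lS i) fun k hk => S3 k (hTr i hi hk)).2 q hFF hd
    have hrr : ∀ i ∈ s, rst (lS i) (rst s p) = rst (lS i) p := fun i hi =>
      C7 (lS i) s p (hTr i hi)
    refine ⟨R3 s hs hTr, R3' (im π s) S1 hTr', S1, ⟨S2, S4 hinj, ?_, ?_, ?_, ?_⟩, ?_, S3⟩
    · intro j hj
      obtain ⟨i, hi, rfl⟩ := (A2 π s j).1 hj
      exact ⟨i, hi, S3 i hi⟩
    · intro i hi
      rw [S3 i hi, himi i hi]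
      exact hI.sup i (hs hi)
    · exact (D3 L ρ s p hI.pp fun k hk _ => hTr k hk).1
    · intro i hi q hq hqle b
      rw [hrr i hi] at hqle
      rw [hmvi i hi q hq, S3 i hi]
      exact hI.ag i (hs hi) q hq hqle b
    · intro hz i hi q hq hqle b
      rw [hrr i hi] at hqle
      rw [hmvi i hi q hq, S3 i hi]
      exact hz i (hs hi) q hq hqle b

end SE
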