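import Pool.Agent.H45.SE.TarT

/-! # TBd: maps between sets of labels, the inverse map -/

open Ordinal Order Set
open scoped ZFSet

namespace SE

open SF

namespace TBdx

theorem mem_rst {s p z : V} : z ∈ rst s p ↔ z ∈ p ∧ fst z ∈ s := by
  unfold rst
  rw [ZFSet.mem_sep]

theorem pair_mem_rst {s p a b : V} :
    ZFSet.pair a b ∈ rst s p ↔ ZFSet.pair a b ∈ p ∧ a ∈ s := by
  rw [mem_rst, fst_pair]

theorem mem_im {π s j : V} : j ∈ im π s ↔ ∃ i ∈ s, app π i = j := by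
  unfold im
  rw [mem_imS]

theorem mem_mv {π q z : V} :
    z ∈ mv π q ↔ ∃ w ∈ q, ZFSet.pair (app π (fst w)) (snd w) = z := by
  unfold mv
  rw [mem_imS]

theorem pair_mem_inv {x y π a b : V} (h : ZFSet.IsFunc x y π) :
    ZFSet.pair a b ∈ inv π ↔ ZFSet.pair b a ∈ π := by
  unfold inv
  rw [mem_imS]
  constructor
  · rintro ⟨z, hz, he⟩
    obtain ⟨h1, h2⟩ := ZFSet.pair_inj.1 he
    obtain ⟨u, -, v, -, rfl⟩ := ZFSet.mem_prod.1 (h.1 hz)
    rw [snd_pair] at h1
    rw [fst_pair] at h2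
    rw [← h1, ← h2]
    exact hz
  · intro hz
    exact ⟨_, hz, by rw [fst_pair, snd_pair]⟩

theorem mem_inv {x y π z : V} (h : ZFSet.IsFunc x y π) :
    z ∈ inv π ↔ ∃ a b, ZFSet.pair a b ∈ π ∧ ZFSet.pair b a = z := by
  constructor
  · intro hz
    have hz' := hz
    unfold inv at hz
    rw [mem_imS] at hz
    obtain ⟨w, hw, rfl⟩ := hz
    obtain ⟨u, -, v, -, rfl⟩ := ZFSet.mem_prod.1 (h.1 hw)
    exact ⟨u, v, hw, by rw [fst_pair, snd_pair]⟩
  · rintro ⟨a, b, hab, rfl⟩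
    exact (pair_mem_inv h).2 hab

theorem ff_eq {q w : V} (hq : FF q) (hw : w ∈ q) : ZFSet.pair (fst w) (snd w) = w := by
  obtain ⟨a, b, rfl⟩ := hq.2.2 w hw
  rw [fst_pair, snd_pair]

theorem fst_mem_dm {q w : V} (hq : FF q) (hw : w ∈ q) : fst w ∈ dm q := by
  rw [mem_dm]
  exact ⟨snd w, by rw [ff_eq hq hw]; exact hw⟩

theorem mvmv {σ τ q : V} (hq : FF q) (h : ∀ i ∈ dm q, app τ (app σ i) = i) :
    mv τ (mv σ q) = q := by
  ext z
  rw [mem_mv]
  constructor
  · rintro ⟨w, hw, rfl⟩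
    rw [mem_mv] at hw
    obtain ⟨u, hu, rfl⟩ := hw
    rw [fst_pair, snd_pair, h _ (fst_mem_dm hq hu), ff_eq hq hu]
    exact hu
  · intro hz
    refine ⟨ZFSet.pair (app σ (fst z)) (snd z), mem_mv.2 ⟨z, hz, rfl⟩, ?_⟩
    rw [fst_pair, snd_pair, h _ (fst_mem_dm hq hz), ff_eq hq hz]

theorem dm_mv {σ q ρ' : V} (hq : FF q) (h : ∀ i ∈ dm q, app σ i ∈ ρ') : dm (mv σ q) ⊆ ρ' := by
  intro x hx
  rw [mem_dm] at hx
  obtain ⟨y, hy⟩ := hx
  rw [mem_mv] at hy
  obtain ⟨w, hw, he⟩ := hy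
  rw [← (ZFSet.pair_inj.1 he).1]
  exact h _ (fst_mem_dm hq hw)

end TBdx

open TBdx in
theorem pf_TBd : T_TBd := by
  intro π ρ ρ' hf
  have happ : ∀ i ∈ ρ, app π i ∈ ρ' := fun i hi => app_mem hf hi
  refine ⟨svl_of_isFunc hf, ?_, happ, ?_, ?_⟩
  · ext x
    rw [mem_dm]
    constructor
    · rintro ⟨y, hy⟩
      exact ((pair_mem_iff_app hf).1 hy).1
    · intro hx
      exact ⟨_, pair_app_mem hf hx⟩
  · intro s hs
    have hfs : ZFSet.IsFunc s (im π s) (rst s π) := by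
      constructor
      · intro z hz
        rw [mem_rst] at hz
        obtain ⟨a, ha, b, hb, rfl⟩ := ZFSet.mem_prod.1 (hf.1 hz.1)
        rw [fst_pair] at hz
        rw [ZFSet.pair_mem_prod]
        refine ⟨hz.2, mem_im.2 ⟨a, hz.2, ?_⟩⟩
        exact app_eq (svl_of_isFunc hf) hz.1
      · intro a ha
        refine ⟨app π a, pair_mem_rst.2 ⟨pair_app_mem hf (hs ha), ha⟩, ?_⟩
        intro b hb
        rw [pair_mem_rst] at hb
        exact (app_eq (svl_of_isFunc hf) hb.1).symm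
    have hap : ∀ i ∈ s, app (rst s π) i = app π i := by
      intro i hi
      refine app_eq (svl_of_isFunc hfs) ?_
      exact pair_mem_rst.2 ⟨pair_app_mem hf (hs hi), hi⟩
    refine ⟨?_, hfs, hap, ?_⟩
    · intro j hj
      obtain ⟨i, hi, rfl⟩ := mem_im.1 hj
      exact happ i (hs hi)
    · intro hinj i hi j hj hij
      rw [hap i hi, hap j hj] at hij
      exact hinj i (hs hi) j (hs hj) hij
  · intro hinj hsurj
    have hfi : ZFSet.IsFunc ρ' ρ (inv π) := by
      constructor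
      · intro z hz
        obtain ⟨a, b, hab, rfl⟩ := (mem_inv hf).1 hz
        have := ZFSet.pair_mem_prod.1 (hf.1 hab)
        exact ZFSet.pair_mem_prod.2 ⟨this.2, this.1⟩
      · intro j hj
        obtain ⟨i, hi, rfl⟩ := hsurj j hj
        refine ⟨i, (pair_mem_inv hf).2 (pair_app_mem hf hi), ?_⟩
        intro k hk
        obtain ⟨hk1, hk2⟩ := (pair_mem_iff_app hf).1 ((pair_mem_inv hf).1 hk)
        exact hinj k hk1 i hi hk2.symm
    have hl : ∀ i ∈ ρ, app (inv π) (app π i) = i := fun i hi =>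
      app_eq (svl_of_isFunc hfi) ((pair_mem_inv hf).2 (pair_app_mem hf hi))
    have hr : ∀ j ∈ ρ', app π (app (inv π) j) = j := by
      intro j hj
      obtain ⟨i, hi, rfl⟩ := hsurj j hj
      rw [hl i hi]
    have hij : Ijo (inv π) ρ' := by
      intro i hi j hj hh
      rw [← hr i hi, ← hr j hj, hh]
    refine ⟨?_, hfi, hij, ?_, hl, hr, ?_, ?_, ?_⟩
    · ext j
      rw [mem_im]
      constructor
      · rintro ⟨i, hi, rfl⟩
        exact happ i hi
      · exact hsurj j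
    · ext z
      rw [mem_inv hfi]
      constructor
      · rintro ⟨a, b, hab, rfl⟩
        exact (pair_mem_inv hf).1 hab
      · intro hz
        obtain ⟨a, -, b, -, rfl⟩ := ZFSet.mem_prod.1 (hf.1 hz)
        exact ⟨b, a, (pair_mem_inv hf).2 hz, rfl⟩
    · intro q hq hd
      exact ⟨dm_mv hq fun i hi => happ i (hd hi), mvmv hq fun i hi => hl i (hd hi)⟩
    · intro q hq hd
      exact ⟨dm_mv hq fun i hi => app_mem hfi (hd hi), mvmv hq fun i hi => hr i (hd hi)⟩
    · intro s hs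
      constructor
      · ext j
        rw [mem_im]
        constructor
        · rintro ⟨i, hi, rfl⟩
          obtain ⟨k, hk, rfl⟩ := mem_im.1 hi
          rw [hl k (hs hk)]
          exact hk
        · intro hj
          exact ⟨app π j, mem_im.2 ⟨j, hj, rfl⟩, hl j (hs hj)⟩
      · intro hid i hi
        conv_lhs => rw [← hid i hi]
        exact hl i (hs hi)

end SE
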